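import Pool.Agent.Helper75.PZ.Stmts2

set_option autoImplicit false

universe u

open Module TensorProduct

namespace Pool.Agent.Helper35.PZ

open Pool.Agent.Helper75.PX Pool.Agent.Helper75.PZ

section
variable {F M : Type u} [Field F] [Field M] [Algebra F M] {σ : M ≃ₐ[F] M}
  {φ ψ : HS M →ₐ[F] HS M}

theorem cen_op_single (φ ψ : HS M →ₐ[F] HS M) (i : Fin 6) (h f : HS M) :
    op φ ψ (Pi.single i h) f = ψ h * XX M ^ (i : ℕ) * (φ^[(i : ℕ)]) f := by
  unfold op
  rw [Finset.sum_eq_single i]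
  · rw [Pi.single_eq_same]
  · intro b _ hb
    rw [Pi.single_eq_of_ne hb, map_zero, zero_mul, zero_mul]
  · intro h; exact absurd (Finset.mem_univ _) h

theorem cen_op_sub (φ ψ : HS M →ₐ[F] HS M) (e e' : Fin 6 → HS M) (f : HS M) :
    op φ ψ (e - e') f = op φ ψ e f - op φ ψ e' f := by
  unfold op
  rw [← Finset.sum_sub_distrib]
  refine Finset.sum_congr rfl fun l _ => ?_
  rw [Pi.sub_apply, map_sub, sub_mul, sub_mul]

theorem cen_uniq (hGD : ST_GD.{u}) (hφ : PHI σ φ) (hψ : PSI ψ) (hσ : ∀ m, σ (σ (σ m)) = m)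
    {e e' : Fin 6 → HS M} (h : op φ ψ e 1 = op φ ψ e' 1) : e = e' := by
  by_contra hne
  have h1 := (hGD F M σ φ ψ hφ hψ hσ (e - e') (sub_ne_zero.2 hne) 1 one_ne_zero).1
  rw [cen_op_sub, h, sub_self] at h1
  exact h1 rfl

theorem cen_comm (hφ : PHI σ φ) (hψ : PSI ψ) (h : HS M) : φ (ψ h) = ψ (φ h) := by
  ext γ
  rw [hφ]
  by_cases h6 : (6 : ℤ) ∣ n1 γ
  · obtain ⟨a, ha⟩ := h6
    have e1 := hψ.1 h (toLex (a, n2 γ)) γ ha rfl
    have e2 := hψ.1 (φ h) (toLex (a, n2 γ)) γ ha rfl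
    rw [e1, e2, hφ]
    rfl
  · rw [hψ.2 h γ h6, hψ.2 (φ h) γ h6, map_zero, mul_zero]

theorem cen_iter (hφ : PHI σ φ) (hψ : PSI ψ) (l : ℕ) (h : HS M) :
    (φ^[l]) (ψ h) = ψ ((φ^[l]) h) := by
  induction l generalizing h with
  | zero => rfl
  | succ l ih => rw [Function.iterate_succ_apply, Function.iterate_succ_apply, cen_comm hφ hψ, ih]

theorem cen_single (hφ : PHI σ φ) (γ : G2) (r : M) :
    φ (HahnSeries.single γ r) = HahnSeries.single γ ((-1 : M) ^ (n2 γ) * σ r) := by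
  ext γ'
  rw [hφ]
  by_cases h : γ' = γ
  · subst h
    rw [HahnSeries.coeff_single_same, HahnSeries.coeff_single_same]
  · rw [HahnSeries.coeff_single_of_ne h, HahnSeries.coeff_single_of_ne h, map_zero, mul_zero]

end

/-- the centre -/
theorem st_CEN (hGD : ST_GD.{u}) : ST_CEN.{u} := by
  intro F M _ _ _ σ φ ψ h2 hφ hψ hσ ⟨m, hm⟩ K hK A _ _ E Φ hΦ hΦK
  have h2' : (2 : HS M) ≠ 0 := by
    rw [← map_ofNat (algebraMap F (HS M)) 2]
    rw [Ne, map_eq_zero_iff _ (algebraMap F (HS M)).injective]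
    exact h2
  have hinj : ∀ a b : A, (∀ f, Φ a f = Φ b f) → a = b := by
    intro a b h
    apply E.injective
    apply cen_uniq hGD hφ hψ hσ
    rw [← hΦ, ← hΦ]
    exact h 1
  refine ⟨fun a ha => ?_⟩
  have hcomm : ∀ b : A, b * a = a * b := fun b => (Subalgebra.mem_center_iff.1 ha b)
  have hcf : ∀ (b : A) (f : HS M), Φ b (Φ a f) = Φ a (Φ b f) := by
    intro b f
    have := congrArg (fun x => Φ x f) (hcomm b)
    simp only [map_mul, Module.End.mul_apply] at this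
    exact this
  obtain ⟨e, he⟩ : ∃ e, e = E a := ⟨_, rfl⟩
  have H : ∀ (l : Fin 6) (h : HS M), e l * (φ^[(l : ℕ)]) h = h * e l := by
    intro l h
    have h1 : op φ ψ (fun l => e l * (φ^[(l : ℕ)]) h) 1 = op φ ψ (fun l => h * e l) 1 := by
      have h3 := hcf (E.symm (Pi.single 0 h)) 1
      rw [hΦ (E.symm (Pi.single 0 h)), hΦ (E.symm (Pi.single 0 h)), E.apply_symm_apply,
        cen_op_single, cen_op_single, hΦ, hΦ, ← he] at h3
      have e0 : ((0 : Fin 6) : ℕ) = 0 := rfl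
      simp only [e0, pow_zero, mul_one, Function.iterate_zero, id_eq] at h3
      unfold op at h3 ⊢
      rw [Finset.mul_sum] at h3
      calc _ = ∑ l : Fin 6, ψ (e l) * XX M ^ (l : ℕ) * (φ^[(l : ℕ)]) (ψ h) := by
            refine Finset.sum_congr rfl fun l _ => ?_
            rw [map_mul, cen_iter hφ hψ, iterate_map_one]
            ring
        _ = _ := by
            rw [← h3]
            refine Finset.sum_congr rfl fun l _ => ?_
            rw [map_mul]
            ring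
    exact congrFun (cen_uniq hGD hφ hψ hσ h1) l
  have Hz : ∀ (l : Fin 6) (h : HS M), (φ^[(l : ℕ)]) h ≠ h → e l = 0 := by
    intro l h hne
    have h1 := H l h
    have h3 : e l * ((φ^[(l : ℕ)]) h - h) = 0 := by rw [mul_sub, h1]; ring
    rcases mul_eq_zero.1 h3 with h4 | h4
    · exact h4
    · exact absurd (sub_eq_zero.1 h4) hne
  obtain ⟨hA, hAd⟩ : ∃ hA : HS M, hA = HahnSeries.single (toLex ((0 : ℤ), (1 : ℤ))) (1 : M) :=
    ⟨_, rfl⟩
  have hA0 : hA ≠ 0 := by
    rw [hAd]; exact HahnSeries.single_ne_zero one_ne_zero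
  have hAφ : φ hA = -hA := by
    rw [hAd, cen_single hφ]
    have : n2 (toLex ((0 : ℤ), (1 : ℤ))) = 1 := rfl
    rw [this, zpow_one, map_one, mul_one, HahnSeries.single_neg]
  have hAne : -hA ≠ hA := by
    intro h
    have : (2 : HS M) * hA = 0 := by
      rw [two_mul]; nth_rewrite 1 [← h]; exact neg_add_cancel hA
    rcases mul_eq_zero.1 this with h4 | h4
    · exact h2' h4
    · exact hA0 h4
  have hsm : σ (σ m) ≠ m := by
    intro h
    have h3 := hσ m
    rw [h] at h3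
    exact hm h3
  have hBφ : ∀ r : M, φ (HahnSeries.single (0 : G2) r) = HahnSeries.single (0 : G2) (σ r) := by
    intro r
    rw [cen_single hφ]
    have : n2 (0 : G2) = 0 := rfl
    rw [this, zpow_zero, one_mul]
  have hBne : ∀ r r' : M, r ≠ r' →
      HahnSeries.single (0 : G2) r ≠ HahnSeries.single (0 : G2) r' := by
    intro r r' h h'
    exact h (HahnSeries.single_injective _ h')
  have z1 : e 1 = 0 := Hz 1 hA (by
    show φ hA ≠ hA
    rw [hAφ]; exact hAne)
  have z3 : e 3 = 0 := Hz 3 hA (by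
    show φ (φ (φ hA)) ≠ hA
    rw [hAφ, map_neg, hAφ, neg_neg, hAφ]; exact hAne)
  have z5 : e 5 = 0 := Hz 5 hA (by
    show φ (φ (φ (φ (φ hA)))) ≠ hA
    rw [hAφ, map_neg, hAφ, neg_neg, hAφ, map_neg, hAφ, neg_neg, hAφ]; exact hAne)
  have z2 : e 2 = 0 := Hz 2 (HahnSeries.single (0 : G2) m) (by
    show φ (φ (HahnSeries.single (0 : G2) m)) ≠ HahnSeries.single (0 : G2) m
    rw [hBφ, hBφ]; exact hBne _ _ hsm)
  have z4 : e 4 = 0 := Hz 4 (HahnSeries.single (0 : G2) m) (by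
    show φ (φ (φ (φ (HahnSeries.single (0 : G2) m)))) ≠ HahnSeries.single (0 : G2) m
    rw [hBφ, hBφ, hBφ, hBφ, hσ]; exact hBne _ _ hm)
  have hes : e = Pi.single 0 (e 0) := by
    funext l
    fin_cases l
    · simp
    · simpa using z1
    · simpa using z2
    · simpa using z3
    · simpa using z4
    · simpa using z5
  have hΦa : ∀ f, Φ a f = ψ (e 0) * f := by
    intro f
    rw [hΦ, ← he, hes, cen_op_single]
    simp
  have h5 := hcf (E.symm (Pi.single 1 1)) 1
  rw [hΦ (E.symm (Pi.single 1 1)), hΦ (E.symm (Pi.single 1 1)), E.apply_symm_apply,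
    cen_op_single, cen_op_single, hΦa, hΦa] at h5
  have e1 : ((1 : Fin 6) : ℕ) = 1 := rfl
  simp only [e1, pow_one, map_one, one_mul, mul_one, Function.iterate_one] at h5
  have hX0 : XX M ≠ 0 := HahnSeries.single_ne_zero one_ne_zero
  have h6 : φ (ψ (e 0)) = ψ (e 0) := by
    apply mul_left_cancel₀ hX0
    rw [h5]; ring
  rw [cen_comm hφ hψ] at h6
  have h7 : φ (e 0) = e 0 := ψ.toRingHom.injective h6
  have h8 : e 0 ∈ K := (hK _).2 h7
  refine Algebra.mem_bot.2 ⟨⟨e 0, h8⟩, hinj _ _ fun f => ?_⟩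
  rw [hΦK, hΦa]

end Pool.Agent.Helper35.PZ
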