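import Pool.Agent.Helper75.PZ.Stmts

set_option autoImplicit false

universe u

open Module TensorProduct

namespace Pool.Agent.Helper35.PZ

open Pool.Agent.Helper75.PX Pool.Agent.Helper75.PZ

section
variable {F K A M : Type*} [Field F] [Field K] [Field M] [Ring A] [Nontrivial A]
  [Algebra F K] [Algebra K A] [Algebra F M] {σ : M ≃ₐ[F] M} {g : A → G2} {c : A → M}

/-- `x` has the residue `r` -/
def cuR (g : A → G2) (c : A → M) (x : A) (r : M) : Prop :=
  (x = 0 ∧ r = 0) ∨ (x ≠ 0 ∧ 0 < g x ∧ r = 0) ∨ (x ≠ 0 ∧ g x = 0 ∧ r = c x)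

theorem cu_pos {x x' : A} (h : SYM (K := K) σ g c) (hx : x ≠ 0) (hx' : x' ≠ 0)
    (h1 : 0 < g x) (h2 : 0 < g x') : cuR g c (x + x') 0 := by
  by_cases h0 : x + x' = 0
  · exact Or.inl ⟨h0, rfl⟩
  · refine Or.inr (Or.inl ⟨h0, ?_, rfl⟩)
    rcases lt_trichotomy (g x) (g x') with h3 | h3 | h3
    · rw [(h.addlt x x' hx hx' h3).2.1]; exact h1
    · by_cases h4 : c x + c x' = 0
      · rcases h.addz x x' hx hx' h3 h4 with h5 | h5
        · exact absurd h5 h0
        · exact h1.trans h5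
      · rw [(h.addeq x x' hx hx' h3 h4).2.1]; exact h1
    · rw [add_comm, (h.addlt x' x hx' hx h3).2.1]; exact h2

theorem cu_add {x x' : A} {a b : M} (h : SYM (K := K) σ g c) (h1 : cuR g c x a)
    (h2 : cuR g c x' b) : cuR g c (x + x') (a + b) := by
  rcases h1 with ⟨rfl, rfl⟩ | ⟨hx, h1, rfl⟩ | ⟨hx, h1, rfl⟩
  · rw [zero_add, zero_add]; exact h2
  · rcases h2 with ⟨rfl, rfl⟩ | ⟨hx', h2, rfl⟩ | ⟨hx', h2, rfl⟩
    · rw [add_zero, add_zero]; exact Or.inr (Or.inl ⟨hx, h1, rfl⟩)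
    · rw [add_zero]; exact cu_pos h hx hx' h1 h2
    · have h3 := h.addlt x' x hx' hx (by rw [h2]; exact h1)
      rw [zero_add, add_comm x x']
      exact Or.inr (Or.inr ⟨h3.1, h3.2.1.trans h2, h3.2.2.symm⟩)
  · rcases h2 with ⟨rfl, rfl⟩ | ⟨hx', h2, rfl⟩ | ⟨hx', h2, rfl⟩
    · rw [add_zero, add_zero]; exact Or.inr (Or.inr ⟨hx, h1, rfl⟩)
    · have h3 := h.addlt x x' hx hx' (by rw [h1]; exact h2)
      rw [add_zero]
      exact Or.inr (Or.inr ⟨h3.1, h3.2.1.trans h1, h3.2.2.symm⟩)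
    · by_cases h4 : c x + c x' = 0
      · rw [h4]
        by_cases h0 : x + x' = 0
        · exact Or.inl ⟨h0, rfl⟩
        · rcases h.addz x x' hx hx' (h1.trans h2.symm) h4 with h5 | h5
          · exact absurd h5 h0
          · rw [h1] at h5
            exact Or.inr (Or.inl ⟨h0, h5, rfl⟩)
      · have h3 := h.addeq x x' hx hx' (h1.trans h2.symm) h4
        exact Or.inr (Or.inr ⟨h3.1, h3.2.1.trans h1, h3.2.2.symm⟩)

theorem cu_c {x x' : A} (h : SYM (K := K) σ g c) (hx : x ≠ 0) (hx' : x' ≠ 0) (h1 : g x = 0) :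
    c (x * x') = c x * c x' := by
  rw [h.cmul x x' hx hx', h1]
  have : n1 (0 : G2) = 0 := rfl
  rw [this, zero_mul, zpow_zero, mul_one, zpow_zero]
  rfl

theorem cu_mul {x x' : A} {a b : M} (h : SYM (K := K) σ g c)
    (hne : x ≠ 0 → x' ≠ 0 → x * x' ≠ 0) (h1 : cuR g c x a)
    (h2 : cuR g c x' b) : cuR g c (x * x') (a * b) := by
  rcases h1 with ⟨rfl, rfl⟩ | ⟨hx, h1, rfl⟩ | ⟨hx, h1, rfl⟩
  · rw [zero_mul, zero_mul]; exact Or.inl ⟨rfl, rfl⟩
  · rcases h2 with ⟨rfl, rfl⟩ | ⟨hx', h2, rfl⟩ | ⟨hx', h2, rfl⟩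
    · rw [mul_zero, mul_zero]; exact Or.inl ⟨rfl, rfl⟩
    · refine Or.inr (Or.inl ⟨hne hx hx', ?_, zero_mul _⟩)
      rw [h.gmul x x' hx hx']; exact add_pos h1 h2
    · refine Or.inr (Or.inl ⟨hne hx hx', ?_, zero_mul _⟩)
      rw [h.gmul x x' hx hx', h2, add_zero]; exact h1
  · rcases h2 with ⟨rfl, rfl⟩ | ⟨hx', h2, rfl⟩ | ⟨hx', h2, rfl⟩
    · rw [mul_zero, mul_zero]; exact Or.inl ⟨rfl, rfl⟩
    · refine Or.inr (Or.inl ⟨hne hx hx', ?_, mul_zero _⟩)
      rw [h.gmul x x' hx hx', h1, zero_add]; exact h2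
    · refine Or.inr (Or.inr ⟨hne hx hx', ?_, ?_⟩)
      · rw [h.gmul x x' hx hx', h1, h2, add_zero]
      · rw [cu_c h hx hx' h1]

theorem cu_F (h : SYM (K := K) σ g c) (r : F) :
    cuR g c (algebraMap K A (algebraMap F K r)) (algebraMap F M r) := by
  by_cases hr : r = 0
  · subst hr
    exact Or.inl ⟨by simp, by simp⟩
  · have h1 := h.fs r hr
    refine Or.inr (Or.inr ⟨?_, h1.1, h1.2.symm⟩)
    rw [Ne, map_eq_zero_iff _ (algebraMap K A).injective,
      map_eq_zero_iff _ (algebraMap F K).injective]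
    exact hr

theorem cu_ne {x : A} {a : M} (h1 : cuR g c x a) (ha : a ≠ 0) :
    x ≠ 0 ∧ g x = 0 ∧ c x = a := by
  rcases h1 with ⟨_, h1⟩ | ⟨_, _, h1⟩ | ⟨hx, h1, h2⟩
  · exact absurd h1 ha
  · exact absurd h1 ha
  · exact ⟨hx, h1, h2.symm⟩

end

/-- the parameter of a cyclic cubic algebra has transcendental residue -/
theorem st_CU : ST_CU.{u} := by
  intro F K A M _ _ _ _ _ _ _ _ σ g c hF hM hσ h y w s e hD
  have hinj := (algebraMap K A).injective
  have hw : w ≠ 0 := by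
    intro h0
    have := hD.hu
    rw [h0, mul_zero] at this
    exact hD.c0 ((map_eq_zero_iff _ hinj).1 this.symm)
  have hy : y ≠ 0 := by
    intro h0
    have := hD.hy
    rw [h0] at this
    simp at this
  have key : (1 + y) * (w * y) = -w := by
    have e1 : (1 + y) * (y * y - (s + 1) • y - 2) = -1 := by
      have e2 : (1 + y) * (y * y - (s + 1) • y - 2) =
          y * y - (s + 1) • y - 2 + (y * y * y - (s + 1) • (y * y) - y * 2) := by
        rw [add_mul, one_mul, mul_sub, mul_sub, mul_smul_comm, mul_assoc]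
      rw [e2, hD.hy]
      simp only [add_smul, one_smul, mul_two]
      have e3 : (3 : K) • y = y + y + y := by
        rw [show (3 : K) = 1 + 1 + 1 by norm_num, add_smul, add_smul, one_smul]
      rw [e3, show (2 : A) = 1 + 1 by norm_num]
      abel
    rw [hD.huy, ← mul_assoc, e1, neg_one_mul]
  have h1y : (1 + y) ≠ 0 := by
    intro h0
    rw [h0, zero_mul] at key
    exact hw (neg_eq_zero.1 key.symm)
  have hwy : w * y ≠ 0 := by
    intro h0
    rw [h0, mul_zero] at key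
    exact hw (neg_eq_zero.1 key.symm)
  have hunit : (y * y - s • y - (s + 3) • (1 : A)) * y = 1 := by
    rw [sub_mul, sub_mul, smul_mul_assoc, smul_mul_assoc, one_mul, hD.hy]
    abel
  have hyl : ∀ x : A, x ≠ 0 → y * x ≠ 0 := by
    intro x hx h0
    apply hx
    calc x = ((y * y - s • y - (s + 3) • (1 : A)) * y) * x := by rw [hunit, one_mul]
      _ = 0 := by rw [mul_assoc, h0, mul_zero]
  have hal : ∀ (k : K) (x : A), algebraMap K A k ≠ 0 → x ≠ 0 → algebraMap K A k * x ≠ 0 := by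
    intro k x hk hx
    rw [← Algebra.smul_def]
    exact smul_ne_zero (fun h0 => hk (by rw [h0, map_zero])) hx
  have e1 := h.fs 1 one_ne_zero
  rw [map_one, map_one, map_one] at e1
  have em := h.fs (-1) (neg_ne_zero.2 one_ne_zero)
  rw [map_neg, map_neg, map_one, map_one, map_neg, map_one] at em
  have hm1 : (-1 : A) ≠ 0 := neg_ne_zero.2 one_ne_zero
  have hgw : g (-w) = g w := by
    rw [← neg_one_mul, h.gmul _ _ hm1 hw, em.1, zero_add]
  have hcw : c (-w) = -c w := by
    rw [← neg_one_mul, cu_c h hm1 hw em.1, em.2, neg_one_mul]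
  have hg1 : g (1 + y) + g y = 0 := by
    have h2 : g ((1 + y) * (w * y)) = g (1 + y) + (g w + g y) := by
      rw [h.gmul _ _ h1y hwy, h.gmul _ _ hw hy]
    rw [key, hgw] at h2
    have h3 : g w + (g (1 + y) + g y) = g w + 0 := by
      rw [add_zero]
      calc g w + (g (1 + y) + g y) = g (1 + y) + (g w + g y) := by abel
        _ = g w := h2.symm
    exact add_left_cancel h3
  have hgy : g y = 0 := by
    rcases lt_trichotomy (g y) 0 with h3 | h3 | h3
    · have h4 := (h.addlt y 1 hy one_ne_zero (by rw [e1.1]; exact h3)).2.1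
      rw [add_comm y 1] at h4
      rw [h4] at hg1
      exact absurd hg1 (add_neg h3 h3).ne
    · exact h3
    · have h4 := (h.addlt 1 y one_ne_zero hy (by rw [e1.1]; exact h3)).2.1
      rw [h4, e1.1, zero_add] at hg1
      exact hg1
  have hg1y : g (1 + y) = 0 := by rw [hgy, add_zero] at hg1; exact hg1
  obtain ⟨m, hm⟩ : ∃ m, m = c y := ⟨_, rfl⟩
  have hRy : cuR g c y m := Or.inr (Or.inr ⟨hy, hgy, hm⟩)
  have hR1 : cuR g c (1 : A) (1 : M) := Or.inr (Or.inr ⟨one_ne_zero, e1.1, e1.2.symm⟩)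
  have hc1y : c (1 + y) = 1 + m := by
    rcases cu_add h hR1 hRy with h2 | h2 | h2
    · exact absurd h2.1 h1y
    · exact absurd hg1y h2.2.1.ne'
    · exact h2.2.2.symm
  have hmk : (1 + m) * (σ ^ (n1 (g w))) m = -1 := by
    have h2 : c ((1 + y) * (w * y)) = (1 + m) * (c w * (σ ^ (n1 (g w))) m) := by
      rw [cu_c h h1y hwy hg1y, hc1y, h.cmul w y hw hy, hgy]
      have : n2 (0 : G2) = 0 := rfl
      rw [this, mul_zero, zpow_zero, mul_one, hm]
    rw [key, hcw] at h2
    have h3 := h.c0 w hw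
    apply mul_left_cancel₀ h3
    calc c w * ((1 + m) * (σ ^ (n1 (g w))) m) = (1 + m) * (c w * (σ ^ (n1 (g w))) m) := by ring
      _ = -c w := h2.symm
      _ = c w * -1 := by ring
  have hmt : ¬ IsAlgebraic F m := by
    intro ha
    obtain ⟨r, hr⟩ := hM m ha
    rw [hr, AlgEquiv.commutes] at hmk
    apply hF r
    apply (algebraMap F M).injective
    rw [map_add, map_add, map_pow, map_one, map_zero]
    linear_combination hmk
  have hnp : ∀ p : Polynomial F, p ≠ 0 → Polynomial.aeval m p ≠ 0 :=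
    fun p hp h0 => hmt ⟨p, hp, h0⟩
  obtain ⟨X, hX⟩ : ∃ X : A, X = y * y * y + algebraMap K A (algebraMap F K (-3)) * y +
      algebraMap K A (algebraMap F K (-1)) := ⟨_, rfl⟩
  have hRX : cuR g c X (m * m * m + algebraMap F M (-3) * m + algebraMap F M (-1)) := by
    rw [hX]
    exact cu_add h (cu_add h (cu_mul h (fun _ _ => by
        rw [mul_assoc]; exact hyl _ (hyl _ hy)) (cu_mul h (fun _ => hyl _) hRy hRy) hRy)
      (cu_mul h (hal _ _) (cu_F h _) hRy)) (cu_F h _)
  have hXm : m * m * m + algebraMap F M (-3) * m + algebraMap F M (-1) ≠ 0 := by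
    have h2 := hnp (Polynomial.X ^ 3 + (Polynomial.C (-3) * Polynomial.X + Polynomial.C (-1))) (by
      apply Polynomial.Monic.ne_zero
      apply Polynomial.monic_X_pow_add
      apply lt_of_le_of_lt (b := ((1 : ℕ) : WithBot ℕ)) _ (by decide)
      exact Polynomial.degree_linear_le)
    intro h3
    apply h2
    simp only [map_add, map_mul, map_pow, Polynomial.aeval_X, Polynomial.aeval_C]
    linear_combination h3
  obtain ⟨hX0, hgX, hcX⟩ := cu_ne hRX hXm
  have hXs : X = algebraMap K A s * (y * (1 + y)) := by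
    have e2 := hD.hy
    have e4 : algebraMap K A (algebraMap F K (-3)) * y = -((3 : K) • y) := by
      rw [← Algebra.smul_def, map_neg, map_ofNat, neg_smul]
    have e5 : algebraMap K A (algebraMap F K (-1)) = -1 := by
      rw [map_neg, map_neg, map_one, map_one]
    rw [hX, e2, e4, e5, ← Algebra.smul_def, mul_add, mul_one, smul_add, add_smul]
    abel
  have hs : s ≠ 0 := by
    intro h0
    rw [h0, map_zero, zero_mul] at hXs
    exact hX0 hXs
  have hsA : algebraMap K A s ≠ 0 := fun h0 => hs ((map_eq_zero_iff _ hinj).1 h0)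
  have hyy : y * (1 + y) ≠ 0 := hyl _ h1y
  have hgs : g (algebraMap K A s) = 0 := by
    rw [hXs, h.gmul _ _ hsA hyy, h.gmul _ _ hy h1y, hgy, hg1y, add_zero, add_zero] at hgX
    exact hgX
  have hcs : c (algebraMap K A s) * (m * (1 + m)) =
      m * m * m + algebraMap F M (-3) * m + algebraMap F M (-1) := by
    rw [← hcX, hXs, cu_c h hsA hyy hgs, cu_c h hy h1y hgy, hc1y, ← hm]
  refine ⟨hs, hgs, fun ha => ?_⟩
  obtain ⟨r, hr⟩ := hM _ ha
  rw [hr] at hcs
  have h2 := hnp (Polynomial.X ^ 3 + (Polynomial.C (-r) * Polynomial.X ^ 2 +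
    Polynomial.C (-(r + 3)) * Polynomial.X + Polynomial.C (-1))) (by
      apply Polynomial.Monic.ne_zero
      apply Polynomial.monic_X_pow_add
      apply lt_of_le_of_lt (b := ((2 : ℕ) : WithBot ℕ)) _ (by decide)
      exact Polynomial.degree_quadratic_le)
  apply h2
  simp only [map_add, map_mul, map_pow, map_neg, map_one, map_ofNat, Polynomial.aeval_X,
    Polynomial.aeval_C] at hcs ⊢
  linear_combination -hcs

end Pool.Agent.Helper35.PZ
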